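import Pool.Agent.H88.MCR.Stmts3
import Pool.Agent.H48.MCR.CGJ

/-!
Board mcr, row CRJ: the field `disj` of `GoodR` for the clone (copy of CGJ by helper48).
-/

set_option autoImplicit false

namespace Pool.MCR

theorem crj_thm (hKIR : KIR_S) (hKLT : KLT_S) : CRJ_S := by
  intro L _ R n D w r hG hw hR hT
  have hEn : ∀ y, (clone D n w r).E n y = newE D w r y := fun y => if_pos rfl
  have hEn' : ∀ x, x < n → (clone D n w r).E x n = (newE D w r x).reverse := by
    intro x hx
    show (if x = n then newE D w r n else if n = n then (newE D w r x).reverse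
      else (D.E x n).map (fun c => lp c 0)) = _
    rw [if_neg (ne_of_lt hx), if_pos rfl]
  have hE : ∀ x y, x < n → y < n →
      (clone D n w r).E x y = (D.E x y).map (fun c => lp c 0) := by
    intro x y hx hy
    show (if x = n then newE D w r y else if y = n then (newE D w r x).reverse
      else (D.E x y).map (fun c => lp c 0)) = _
    rw [if_neg (ne_of_lt hx), if_neg (ne_of_lt hy)]
  obtain ⟨hK1, -, hK3⟩ := hKIR L R n D hG
  obtain ⟨-, -, hKtot, -, -⟩ := hKLT L (D.pos w)
  -- two new edges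
  have hnn : ∀ a < n, ∀ b < n, R w a → R w b → ∀ c, c ∈ newE D w r a → c ∈ newE D w r b →
      a = b := by
    intro a ha b hb hwa hwb c hca hcb
    by_contra hab
    obtain ⟨haw, hca⟩ := cgj_mem_newE hca
    obtain ⟨hbw, hcb⟩ := cgj_mem_newE hcb
    rcases hca with ⟨hSa, hca⟩ | ⟨d, hd, k, hk, hca⟩
    · rcases hcb with ⟨hSb, hcb⟩ | ⟨e, he, k, hk, hcb⟩
      · rw [hca] at hcb
        have h1 := (cgp_lp_inj hcb).2
        have hna := (hK1 w hw a ha hwa).2.1
        have hnb := (hK1 w hw b hb hwb).2.1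
        have hne := hK3 w hw a ha b hb hwa hwb hab
        rcases hKtot _ _ hna hnb hne with h | h
        · have := hR.2 a ha b hb hwa hwb hab hSa hSb h
          omega
        · have := hR.2 b hb a ha hwb hwa (Ne.symm hab) hSb hSa h
          omega
      · rw [hca] at hcb
        rw [← (cgp_lp_inj hcb).1] at he
        exact hG.notin w hw b hb w hw hwb he
    · rcases hcb with ⟨hSb, hcb⟩ | ⟨e, he, k', hk', hcb⟩
      · rw [hca] at hcb
        rw [(cgp_lp_inj hcb).1] at hd
        exact hG.notin w hw a ha w hw hwa hd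
      · rw [hca] at hcb
        rw [← (cgp_lp_inj hcb).1] at he
        rcases hG.disj w hw a ha w hw b hb hwa hwb d hd he with h | h
        · exact hab h.2
        · exact hbw h.1.symm
  -- an old and a new edge
  have hon : ∀ x < n, ∀ y < n, ∀ b < n, ∀ c, c ∈ (D.E x y).map (fun c => lp c (0 : ℤ)) →
      c ∈ newE D w r b → False := by
    intro x _ y _ b _ c hc hcb
    rw [List.mem_map] at hc
    obtain ⟨d, -, hc⟩ := hc
    have hr := hR.1 b
    rcases (cgj_mem_newE hcb).2 with ⟨-, h⟩ | ⟨e, -, k, hk, h⟩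
    · rw [← hc] at h
      have := (cgp_lp_inj h).2
      omega
    · rw [← hc] at h
      have := (cgp_lp_inj h).2
      omega
  -- every edge is old or new
  have hcase : ∀ x < n + 1, ∀ y < n + 1, R x y → ∀ c, c ∈ (clone D n w r).E x y →
      (x < n ∧ y < n ∧ c ∈ (D.E x y).map (fun c => lp c 0)) ∨
      (x = n ∧ y < n ∧ R w y ∧ c ∈ newE D w r y) ∨
      (y = n ∧ x < n ∧ R w x ∧ c ∈ newE D w r x) := by
    intro x hx y hy hxy c hc
    have hne : x ≠ y := by
      intro h
      rw [h] at hxy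
      exact hG.irr y hxy
    by_cases hxn : x = n
    · have hy' : y < n := by omega
      rw [hxn] at hc hxy
      rw [hEn] at hc
      exact Or.inr (Or.inl ⟨hxn, hy', (hT y hy').1 hxy, hc⟩)
    · have hx' : x < n := by omega
      by_cases hyn : y = n
      · rw [hyn] at hc hxy
        rw [hEn' x hx', List.mem_reverse] at hc
        exact Or.inr (Or.inr ⟨hyn, hx', (hT x hx').1 (hG.sym _ _ hxy), hc⟩)
      · have hy' : y < n := by omega
        rw [hE x y hx' hy'] at hc
        exact Or.inl ⟨hx', hy', hc⟩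
  intro x hx y hy z hz t ht hxy hzt c hc1 hc2
  rcases hcase x hx y hy hxy c hc1 with ⟨hx', hy', h1⟩ | ⟨hxn, hy', hr1, h1⟩ |
    ⟨hyn, hx', hr1, h1⟩
  · rcases hcase z hz t ht hzt c hc2 with ⟨hz', ht', h2⟩ | ⟨hzn, ht', hr2, h2⟩ |
      ⟨htn, hz', hr2, h2⟩
    · rw [List.mem_map] at h1 h2
      obtain ⟨d, hd, hdc⟩ := h1
      obtain ⟨e, he, hec⟩ := h2
      rw [← hec] at hdc
      rw [← (cgp_lp_inj hdc).1] at he
      exact hG.disj x hx' y hy' z hz' t ht' hxy hzt d hd he
    · exact (hon x hx' y hy' t ht' c h1 h2).elim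
    · exact (hon x hx' y hy' z hz' c h1 h2).elim
  · rcases hcase z hz t ht hzt c hc2 with ⟨hz', ht', h2⟩ | ⟨hzn, ht', hr2, h2⟩ |
      ⟨htn, hz', hr2, h2⟩
    · exact (hon z hz' t ht' y hy' c h2 h1).elim
    · left
      exact ⟨hxn.trans hzn.symm, hnn y hy' t ht' hr1 hr2 c h1 h2⟩
    · right
      exact ⟨hxn.trans htn.symm, hnn y hy' z hz' hr1 hr2 c h1 h2⟩
  · rcases hcase z hz t ht hzt c hc2 with ⟨hz', ht', h2⟩ | ⟨hzn, ht', hr2, h2⟩ |
      ⟨htn, hz', hr2, h2⟩
    · exact (hon z hz' t ht' x hx' c h2 h1).elim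
    · right
      exact ⟨hnn x hx' t ht' hr1 hr2 c h1 h2, hyn.trans hzn.symm⟩
    · left
      exact ⟨hnn x hx' z hz' hr1 hr2 c h1 h2, hyn.trans htn.symm⟩

end Pool.MCR
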